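import Pool.Agent.R270.IenvBasic

/-!
# The (I)-envelope of a convex union of two convex sets
-/

namespace Pool.Agent.Results.MP_b3c6e2_an.ConvexUnion

open Set Filter Topology
open R270.IenvBasic

section key

variable {E : Type*} [AddCommGroup E] [Module ℝ E] (A B : Set E) (p q : ℕ → E → ℝ) (ε : ℝ)

/-- The convex combination with parameter `s` is good along the filter `V`. -/
def Good (s : ℝ) (V : Filter ℕ) : Prop :=
  ∀ ξ ∈ A ∪ B, ∀ κ : ℝ, 0 < κ → ∀ᶠ n in V, s * p n ξ + (1 - s) * q n ξ < -ε + κ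

variable {A B p q ε}

lemma exists_limit (f : ℕ → ℝ) (hf : ∃ C, ∀ n, |f n| ≤ C) (V : Ultrafilter ℕ) :
    ∃ L, Tendsto f V (𝓝 L) := by
  obtain ⟨C, hC⟩ := hf
  have h1 : ((V.map f : Ultrafilter ℝ) : Filter ℝ) ≤ 𝓟 (Icc (-C) C) := by
    rw [le_principal_iff, Ultrafilter.coe_map, mem_map]
    exact Eventually.of_forall fun n : ℕ => abs_le.1 (hC n)
  obtain ⟨L, -, hL⟩ := isCompact_Icc.ultrafilter_le_nhds _ h1
  exact ⟨L, hL⟩

/-- Along every ultrafilter some parameter is good. -/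
lemma exists_good (hconv : Convex ℝ (A ∪ B))
    (hpa : ∀ n (a b : ℝ) ξ ζ, a + b = 1 → p n (a • ξ + b • ζ) = a * p n ξ + b * p n ζ)
    (hqa : ∀ n (a b : ℝ) ξ ζ, a + b = 1 → q n (a • ξ + b • ζ) = a * q n ξ + b * q n ζ)
    (hpb : ∀ ξ, ∃ C, ∀ n, |p n ξ| ≤ C) (hqb : ∀ ξ, ∃ C, ∀ n, |q n ξ| ≤ C)
    (hA : ∀ ξ ∈ A, ∀ᶠ n in atTop, p n ξ ≤ -ε) (hB : ∀ ξ ∈ B, ∀ᶠ n in atTop, q n ξ ≤ -ε)
    (V : Ultrafilter ℕ) (hV : (V : Filter ℕ) ≤ atTop) :
    ∃ s : ℝ, 0 ≤ s ∧ s ≤ 1 ∧ Good A B p q ε s V := by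
  choose P hP using fun ξ => exists_limit (fun n => p n ξ) (hpb ξ) V
  choose Q hQ using fun ξ => exists_limit (fun n => q n ξ) (hqb ξ) V
  have hPa : ∀ (a b : ℝ) ξ ζ, a + b = 1 → P (a • ξ + b • ζ) = a * P ξ + b * P ζ := by
    intro a b ξ ζ hab
    refine tendsto_nhds_unique (hP _) ?_
    have h1 := ((hP ξ).const_mul a).add ((hP ζ).const_mul b)
    refine h1.congr fun n => ?_
    rw [hpa n a b ξ ζ hab]
  have hQa : ∀ (a b : ℝ) ξ ζ, a + b = 1 → Q (a • ξ + b • ζ) = a * Q ξ + b * Q ζ := by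
    intro a b ξ ζ hab
    refine tendsto_nhds_unique (hQ _) ?_
    have h1 := ((hQ ξ).const_mul a).add ((hQ ζ).const_mul b)
    refine h1.congr fun n => ?_
    rw [hqa n a b ξ ζ hab]
  rcases (A ∪ B).eq_empty_or_nonempty with hemp | ⟨ξ0, hξ0⟩
  · refine ⟨0, le_rfl, zero_le_one, fun ξ hξ => ?_⟩
    rw [hemp] at hξ
    exact absurd hξ (notMem_empty _)
  set D : Set (ℝ × ℝ) := (fun ξ => (P ξ, Q ξ)) '' (A ∪ B) with hD
  have hDconv : Convex ℝ D := by
    rintro _ ⟨ξ, hξ, rfl⟩ _ ⟨ζ, hζ, rfl⟩ a b ha hb hab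
    refine ⟨a • ξ + b • ζ, hconv hξ hζ ha hb hab, ?_⟩
    simp only [hPa a b ξ ζ hab, hQa a b ξ ζ hab, Prod.smul_mk, Prod.mk_add_mk, smul_eq_mul]
  set Q0 : Set (ℝ × ℝ) := Ioi (-ε) ×ˢ Ioi (-ε) with hQ0
  have hQ0conv : Convex ℝ Q0 := (convex_Ioi _).prod (convex_Ioi _)
  have hQ0open : IsOpen Q0 := isOpen_Ioi.prod isOpen_Ioi
  have hdisj : Disjoint Q0 D := by
    rw [Set.disjoint_left]
    rintro _ ⟨h1, h2⟩ ⟨ξ, hξ, rfl⟩
    rcases hξ with hξ | hξ
    · have := le_of_tendsto (hP ξ) (hV (hA ξ hξ))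
      exact absurd h1 (not_lt.2 this)
    · have := le_of_tendsto (hQ ξ) (hV (hB ξ hξ))
      exact absurd h2 (not_lt.2 this)
  obtain ⟨f, u, hf1, hf2⟩ := geometric_hahn_banach_open hQ0conv hQ0open hDconv hdisj
  set α := f (1, 0) with hα
  set β := f (0, 1) with hβ
  have hf : ∀ x y : ℝ, f (x, y) = x * α + y * β := by
    intro x y
    have : ((x, y) : ℝ × ℝ) = x • (1, 0) + y • (0, 1) := by simp
    rw [this, map_add, map_smul, map_smul, smul_eq_mul, smul_eq_mul]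
  have hα0 : α ≤ 0 := by
    by_contra hcon
    push Not at hcon
    have h1 := hf1 (-ε + 1 + |(u - (-ε + 1) * α - (-ε + 1) * β) / α|, -ε + 1)
      ⟨by
        have := abs_nonneg ((u - (-ε + 1) * α - (-ε + 1) * β) / α)
        simp only [mem_Ioi]; linarith, by simp only [mem_Ioi]; linarith⟩
    rw [hf] at h1
    have h2 := le_abs_self ((u - (-ε + 1) * α - (-ε + 1) * β) / α)
    have h3 : (u - (-ε + 1) * α - (-ε + 1) * β) ≤
        |(u - (-ε + 1) * α - (-ε + 1) * β) / α| * α := by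
      rw [← div_le_iff₀ hcon]; exact h2
    linarith
  have hβ0 : β ≤ 0 := by
    by_contra hcon
    push Not at hcon
    have h1 := hf1 (-ε + 1, -ε + 1 + |(u - (-ε + 1) * α - (-ε + 1) * β) / β|)
      ⟨by simp only [mem_Ioi]; linarith, by
        have := abs_nonneg ((u - (-ε + 1) * α - (-ε + 1) * β) / β)
        simp only [mem_Ioi]; linarith⟩
    rw [hf] at h1
    have h2 := le_abs_self ((u - (-ε + 1) * α - (-ε + 1) * β) / β)
    have h3 : (u - (-ε + 1) * α - (-ε + 1) * β) ≤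
        |(u - (-ε + 1) * α - (-ε + 1) * β) / β| * β := by
      rw [← div_le_iff₀ hcon]; exact h2
    linarith
  have hm : 0 < -(α + β) := by
    by_contra hcon
    push Not at hcon
    have hα1 : α = 0 := by linarith
    have hβ1 : β = 0 := by linarith
    have h1 := hf1 (-ε + 1, -ε + 1) ⟨by simp only [mem_Ioi]; linarith,
      by simp only [mem_Ioi]; linarith⟩
    have h2 := hf2 _ ⟨ξ0, hξ0, rfl⟩
    rw [hf, hα1, hβ1] at h1 h2
    linarith
  have hu : -(α + β) * ε ≤ u := by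
    refine le_of_forall_pos_le_add fun t ht => ?_
    have h1 := hf1 (-ε + t / -(α + β), -ε + t / -(α + β)) (by
      have : 0 < t / -(α + β) := by positivity
      exact ⟨by simp only [mem_Ioi]; linarith, by simp only [mem_Ioi]; linarith⟩)
    rw [hf] at h1
    have h2 : t / -(α + β) * -(α + β) = t := div_mul_cancel₀ t hm.ne'
    have h3 : (-ε + t / -(α + β)) * α + (-ε + t / -(α + β)) * β =
        -(α + β) * ε - t / -(α + β) * -(α + β) := by ring
    rw [h3, h2] at h1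
    linarith
  refine ⟨-α / -(α + β), div_nonneg (by linarith) hm.le, by rw [div_le_one hm]; linarith, ?_⟩
  intro ξ hξ κ hκ
  have hlim := ((hP ξ).const_mul (-α / -(α + β))).add ((hQ ξ).const_mul (1 - -α / -(α + β)))
  refine hlim.eventually (gt_mem_nhds ?_) |>.mono fun n hn => hn
  have h1 := hf2 _ ⟨ξ, hξ, rfl⟩
  simp only at h1
  rw [hf] at h1
  have h2 : (1 - -α / -(α + β)) = -β / -(α + β) := by
    rw [eq_div_iff hm.ne', sub_mul, div_mul_cancel₀ _ hm.ne']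
    ring
  rw [h2]
  have h3 : -α / -(α + β) * P ξ + -β / -(α + β) * Q ξ =
      -(P ξ * α + Q ξ * β) / -(α + β) := by ring
  rw [h3]
  have h4 : -(P ξ * α + Q ξ * β) / -(α + β) ≤ -ε := by
    rw [div_le_iff₀ hm]
    linarith
  linarith

/-- If no parameter is good along `F`, one can pass to a smaller filter along which all good
parameters lie on one side. -/
lemma side (hA : ∀ ξ ∈ A, ∀ᶠ n in atTop, p n ξ ≤ -ε) (hB : ∀ ξ ∈ B, ∀ᶠ n in atTop, q n ξ ≤ -ε)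
    (F : Filter ℕ) (hF : F ≤ atTop) (s : ℝ) (hs0 : 0 ≤ s) (hs1 : s ≤ 1)
    (hbad : ¬ Good A B p q ε s F) :
    ∃ N : Set ℕ, (F ⊓ 𝓟 N).NeBot ∧
      ((∀ (V : Filter ℕ) [V.NeBot], V ≤ F ⊓ 𝓟 N → ∀ s', Good A B p q ε s' V → s ≤ s') ∨
       (∀ (V : Filter ℕ) [V.NeBot], V ≤ F ⊓ 𝓟 N → ∀ s', Good A B p q ε s' V → s' ≤ s)) := by
  unfold Good at hbad
  push Not at hbad
  obtain ⟨ξ, hξ, κ, hκ, hfreq⟩ := hbad
  refine ⟨{n | -ε + κ ≤ s * p n ξ + (1 - s) * q n ξ}, frequently_iff_neBot.1 hfreq, ?_⟩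
  rcases hξ with hξ | hξ
  · left
    intro V _ hV s' hs'
    by_contra hlt
    push Not at hlt
    have h1 : ∀ᶠ n in V, s' * p n ξ + (1 - s') * q n ξ < -ε + κ := hs' ξ (Or.inl hξ) κ hκ
    have h2 : ∀ᶠ n in V, -ε + κ ≤ s * p n ξ + (1 - s) * q n ξ :=
      hV (mem_inf_of_right (mem_principal_self _))
    have h3 : ∀ᶠ n in V, p n ξ ≤ -ε := hV (mem_inf_of_left (hF (hA ξ hξ)))
    obtain ⟨n, hn1, hn2, hn3⟩ := (h1.and (h2.and h3)).exists
    have h4 : 0 < (1 - s) * (q n ξ - p n ξ) := by nlinarith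
    have h5 : 0 < q n ξ - p n ξ := by
      by_contra hcon
      push Not at hcon
      have : (1 - s) * (q n ξ - p n ξ) ≤ 0 := mul_nonpos_of_nonneg_of_nonpos (by linarith) hcon
      linarith
    nlinarith
  · right
    intro V _ hV s' hs'
    by_contra hlt
    push Not at hlt
    have h1 : ∀ᶠ n in V, s' * p n ξ + (1 - s') * q n ξ < -ε + κ := hs' ξ (Or.inr hξ) κ hκ
    have h2 : ∀ᶠ n in V, -ε + κ ≤ s * p n ξ + (1 - s) * q n ξ :=
      hV (mem_inf_of_right (mem_principal_self _))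
    have h3 : ∀ᶠ n in V, q n ξ ≤ -ε := hV (mem_inf_of_left (hF (hB ξ hξ)))
    obtain ⟨n, hn1, hn2, hn3⟩ := (h1.and (h2.and h3)).exists
    have h4 : 0 < s * (p n ξ - q n ξ) := by nlinarith
    have h5 : 0 < p n ξ - q n ξ := by
      by_contra hcon
      push Not at hcon
      have : s * (p n ξ - q n ξ) ≤ 0 := mul_nonpos_of_nonneg_of_nonpos hs0 hcon
      linarith
    nlinarith

/-- The bisection argument. -/
lemma exists_good_filter (hconv : Convex ℝ (A ∪ B))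
    (hpa : ∀ n (a b : ℝ) ξ ζ, a + b = 1 → p n (a • ξ + b • ζ) = a * p n ξ + b * p n ζ)
    (hqa : ∀ n (a b : ℝ) ξ ζ, a + b = 1 → q n (a • ξ + b • ζ) = a * q n ξ + b * q n ζ)
    (hpb : ∀ ξ, ∃ C, ∀ n, |p n ξ| ≤ C) (hqb : ∀ ξ, ∃ C, ∀ n, |q n ξ| ≤ C)
    (hA : ∀ ξ ∈ A, ∀ᶠ n in atTop, p n ξ ≤ -ε) (hB : ∀ ξ ∈ B, ∀ᶠ n in atTop, q n ξ ≤ -ε) :
    ∃ (F : Filter ℕ) (s : ℝ), F.NeBot ∧ F.IsCountablyGenerated ∧ F ≤ atTop ∧ 0 ≤ s ∧ s ≤ 1 ∧
      Good A B p q ε s F := by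
  by_contra hno
  push Not at hno
  -- the states of the bisection
  set St := {z : Filter ℕ × ℝ × ℝ // z.1.NeBot ∧ z.1.IsCountablyGenerated ∧ z.1 ≤ atTop ∧
    0 ≤ z.2.1 ∧ z.2.1 ≤ z.2.2 ∧ z.2.2 ≤ 1 ∧
    ∀ V : Ultrafilter ℕ, (V : Filter ℕ) ≤ z.1 → ∀ s, 0 ≤ s → s ≤ 1 →
      Good A B p q ε s V → z.2.1 ≤ s ∧ s ≤ z.2.2} with hSt
  have hstep : ∀ z : St, ∃ z' : St, z'.1.1 ≤ z.1.1 ∧ z.1.2.1 ≤ z'.1.2.1 ∧
      z'.1.2.2 ≤ z.1.2.2 ∧ z'.1.2.2 - z'.1.2.1 = (z.1.2.2 - z.1.2.1) / 2 := by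
    rintro ⟨⟨F, a, b⟩, hF1, hF2, hF3, ha, hab, hb, hV⟩
    simp only at hF1 hF2 hF3 ha hab hb hV
    obtain ⟨N, hN1, hN2⟩ := side hA hB F hF3 ((a + b) / 2) (by linarith) (by linarith)
      (hno F ((a + b) / 2) hF1 hF2 hF3 (by linarith) (by linarith))
    rcases hN2 with hN2 | hN2
    · refine ⟨⟨(F ⊓ 𝓟 N, (a + b) / 2, b), hN1, inferInstance, inf_le_left.trans hF3, by
        simp only; linarith, by simp only; linarith, hb, ?_⟩, inf_le_left, ?_, le_rfl, ?_⟩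
      · intro V hVF s hs0 hs1 hg
        exact ⟨hN2 V hVF s hg, (hV V (hVF.trans inf_le_left) s hs0 hs1 hg).2⟩
      · simp only; linarith
      · simp only; ring
    · refine ⟨⟨(F ⊓ 𝓟 N, a, (a + b) / 2), hN1, inferInstance, inf_le_left.trans hF3, ha, by
        simp only; linarith, by simp only; linarith, ?_⟩, inf_le_left, le_rfl, ?_, ?_⟩
      · intro V hVF s hs0 hs1 hg
        exact ⟨(hV V (hVF.trans inf_le_left) s hs0 hs1 hg).1, hN2 V hVF s hg⟩
      · simp only; linarith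
      · simp only; ring
  choose nxt hn1 hn2 hn3 hn4 using hstep
  have hinit : ∀ V : Ultrafilter ℕ, (V : Filter ℕ) ≤ atTop → ∀ s : ℝ, 0 ≤ s → s ≤ 1 →
      Good A B p q ε s V → 0 ≤ s ∧ s ≤ 1 := fun V _ s h0 h1 _ => ⟨h0, h1⟩
  set z0 : St := ⟨(atTop, 0, 1), inferInstance, inferInstance, le_rfl, le_rfl, zero_le_one,
    le_rfl, hinit⟩ with hz0
  set z : ℕ → St := fun k => Nat.rec z0 (fun _ w => nxt w) k with hz
  have hzs : ∀ k, z (k + 1) = nxt (z k) := fun k => rfl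
  have hFanti : Antitone fun k => (z k).1.1 := antitone_nat_of_succ_le fun k => by
    rw [hzs]; exact hn1 _
  have hamono : Monotone fun k => (z k).1.2.1 := monotone_nat_of_le_succ fun k => by
    rw [hzs]; exact hn2 _
  have hbanti : Antitone fun k => (z k).1.2.2 := antitone_nat_of_succ_le fun k => by
    rw [hzs]; exact hn3 _
  have hlen : ∀ k, (z k).1.2.2 - (z k).1.2.1 = (1 / 2 : ℝ) ^ k := by
    intro k
    induction k with
    | zero => simp [hz, hz0]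
    | succ k ih => rw [hzs, hn4, ih, pow_succ]; ring
  -- the limit filter
  set Finf : Filter ℕ := ⨅ k, (z k).1.1 with hFinf
  have hne : Finf.NeBot := by
    have : ∀ k, ((z k).1.1).NeBot := fun k => (z k).2.1
    exact iInf_neBot_of_directed' (directed_of_isDirected_le hFanti) this
  have hcg : Finf.IsCountablyGenerated := by
    have : ∀ k, ((z k).1.1).IsCountablyGenerated := fun k => (z k).2.2.1
    exact inferInstance
  have hle : Finf ≤ atTop := (iInf_le _ 0).trans (z 0).2.2.2.1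
  -- the limit parameter
  obtain ⟨V0, hV0⟩ := Ultrafilter.exists_le Finf
  obtain ⟨s0, hs00, hs01, hs0⟩ :=
    exists_good hconv hpa hqa hpb hqb hA hB V0 (hV0.trans hle)
  refine hno Finf s0 hne hcg hle hs00 hs01 ?_
  -- every ultrafilter below the limit filter has `s0` as a good parameter
  have hkey : ∀ V : Ultrafilter ℕ, (V : Filter ℕ) ≤ Finf → Good A B p q ε s0 V := by
    intro V hVF
    obtain ⟨s, hs0', hs1', hs⟩ :=
      exists_good hconv hpa hqa hpb hqb hA hB V (hVF.trans hle)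
    have heq : s = s0 := by
      have h1 : ∀ k, |s - s0| ≤ (1 / 2 : ℝ) ^ k := by
        intro k
        have h2 := (z k).2.2.2.2.2.2.2 V (hVF.trans (iInf_le _ k)) s hs0' hs1' hs
        have h3 := (z k).2.2.2.2.2.2.2 V0 (hV0.trans (iInf_le _ k)) s0 hs00 hs01 hs0
        rw [← hlen k, abs_le]
        constructor <;> linarith [h2.1, h2.2, h3.1, h3.2]
      have h2 : Tendsto (fun k : ℕ => (1 / 2 : ℝ) ^ k) atTop (𝓝 0) :=
        tendsto_pow_atTop_nhds_zero_of_lt_one (by norm_num) (by norm_num)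
      have h3 : |s - s0| ≤ 0 := ge_of_tendsto' h2 h1
      have h4 : s - s0 = 0 := abs_eq_zero.1 (le_antisymm h3 (abs_nonneg _))
      linarith
    rw [← heq]
    exact hs
  intro ξ hξ κ hκ
  exact mem_iff_ultrafilter.2 fun V hV => hkey V hV ξ hξ κ hκ

end key

/-- **Answer to Q1 (positive).** Let `X` be a real or complex Banach space and let `A`, `B` be
convex subsets of the dual such that `A ∪ B` is convex. Then the (I)-envelope of `A ∪ B` is the
union of the (I)-envelopes of `A` and of `B`. -/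
theorem result (𝕜 : Type*) [RCLike 𝕜] (X : Type*) [NormedAddCommGroup X] [NormedSpace 𝕜 X]
    [CompleteSpace X] (A B : Set (StrongDual 𝕜 X)) (_hA : Convex ℝ A) (_hB : Convex ℝ B)
    (hAB : Convex ℝ (A ∪ B)) : Ienv (A ∪ B) = Ienv A ∪ Ienv B := by
  refine Subset.antisymm ?_ (union_subset (Ienv_mono subset_union_left)
    (Ienv_mono subset_union_right))
  intro η hη
  by_contra hcon
  rw [mem_union, not_or] at hcon
  obtain ⟨ε1, hε1, x, hx, hx2⟩ := exists_seq_of_notMem hcon.1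
  obtain ⟨ε2, hε2, y, hy, hy2⟩ := exists_seq_of_notMem hcon.2
  set ε : ℝ := min ε1 ε2 with hε
  have hε0 : 0 < ε := lt_min hε1 hε2
  have hbd : ∀ (w : ℕ → X), (∀ n, ‖w n‖ ≤ 1) → ∀ ξ : StrongDual 𝕜 X,
      ∃ C, ∀ n, |RCLike.re (ξ (w n)) - RCLike.re (η (w n))| ≤ C := by
    intro w hw ξ
    refine ⟨‖ξ - η‖, fun n => ?_⟩
    rw [← map_sub, ← sub_apply]
    calc |RCLike.re ((ξ - η) (w n))| ≤ ‖(ξ - η) (w n)‖ := RCLike.abs_re_le_norm _
      _ ≤ ‖ξ - η‖ * ‖w n‖ := (ξ - η).le_opNorm _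
      _ ≤ ‖ξ - η‖ * 1 := by gcongr; exact hw n
      _ = ‖ξ - η‖ := mul_one _
  have haff : ∀ (w : ℕ → X) (n : ℕ) (a b : ℝ) (ξ ζ : StrongDual 𝕜 X), a + b = 1 →
      RCLike.re ((a • ξ + b • ζ) (w n)) - RCLike.re (η (w n)) =
      a * (RCLike.re (ξ (w n)) - RCLike.re (η (w n))) +
        b * (RCLike.re (ζ (w n)) - RCLike.re (η (w n))) := by
    intro w n a b ξ ζ hab
    rw [add_apply, smul_apply, smul_apply, map_add, RCLike.smul_re, RCLike.smul_re]
    have : b = 1 - a := by linarith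
    rw [this]; ring
  obtain ⟨F, s, hF1, hF2, hF3, hs0, hs1, hgood⟩ := exists_good_filter (A := A) (B := B)
    (p := fun n ξ => RCLike.re (ξ (x n)) - RCLike.re (η (x n)))
    (q := fun n ξ => RCLike.re (ξ (y n)) - RCLike.re (η (y n))) (ε := ε) hAB
    (haff x) (haff y) (hbd x hx) (hbd y hy)
    (fun ξ hξ => (hx2 ξ hξ).mono fun n hn => by
      have := min_le_left ε1 ε2
      linarith)
    (fun ξ hξ => (hy2 ξ hξ).mono fun n hn => by
      have := min_le_right ε1 ε2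
      linarith)
  obtain ⟨φ, hφ⟩ := exists_seq_tendsto F
  refine Ienv_seq hη (ε / 2) (by positivity)
    (fun k => (s : 𝕜) • x (φ k) + ((1 - s : ℝ) : 𝕜) • y (φ k)) (fun k => ?_) ?_
  · calc ‖(s : 𝕜) • x (φ k) + ((1 - s : ℝ) : 𝕜) • y (φ k)‖
        ≤ ‖(s : 𝕜) • x (φ k)‖ + ‖((1 - s : ℝ) : 𝕜) • y (φ k)‖ := norm_add_le _ _
      _ ≤ s * 1 + (1 - s) * 1 := by
          rw [norm_smul, norm_smul, RCLike.norm_ofReal, RCLike.norm_ofReal, abs_of_nonneg hs0,
            abs_of_nonneg (by linarith : (0 : ℝ) ≤ 1 - s)]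
          have h1 := mul_le_mul_of_nonneg_left (hx (φ k)) hs0
          have h2 := mul_le_mul_of_nonneg_left (hy (φ k)) (by linarith : (0 : ℝ) ≤ 1 - s)
          linarith
      _ = 1 := by ring
  · intro ξ hξ
    filter_upwards [hφ.eventually (hgood ξ hξ (ε / 2) (by positivity))] with k hk
    have e : ∀ ζ : StrongDual 𝕜 X,
        RCLike.re (ζ ((s : 𝕜) • x (φ k) + ((1 - s : ℝ) : 𝕜) • y (φ k))) =
        s * RCLike.re (ζ (x (φ k))) + (1 - s) * RCLike.re (ζ (y (φ k))) := by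
      intro ζ
      rw [map_add, map_smul, map_smul, smul_eq_mul, smul_eq_mul, map_add, RCLike.re_ofReal_mul,
        RCLike.re_ofReal_mul]
    rw [e, e]
    linarith

end Pool.Agent.Results.MP_b3c6e2_an.ConvexUnion
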